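import Pool.Agent.H41.PNF.Cnt

/-!
# PNF, row YAV: the first moment
-/

set_option autoImplicit false

namespace Pool.PNF

open Polynomial Matrix NumberField IsDedekindDomain Pool.HYP Pool.TOW Pool.AVS Pool.T1 Pool.NF
  Pool.PRK

/-- YAV. -/
theorem yav : YAVStmt := by
  classical
  intro hYLS hcnt' K _ _ ⟨B₁, hB₁, haux⟩ ⟨B₂, hKey⟩ ⟨c₂, hL⟩ hirr T'
  obtain ⟨C, hC⟩ : ∃ C, C = max B₁ B₂ := ⟨_, rfl⟩
  have hBC1 : B₁ ≤ C := hC ▸ le_max_left _ _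
  have hBC2 : B₂ ≤ C := hC ▸ le_max_right _ _
  have hC1 : 1 ≤ C := hB₁.trans hBC1
  obtain ⟨c₁, hc₁, hcnt⟩ := hcnt' K C hC1
  set M : ℝ := ∏ P ∈ T', (Nm P : ℝ) ^ 3 with hM
  obtain ⟨b, hb⟩ := exists_nat_ge C
  refine ⟨c₁ * c₂ * M, b, fun D hD hDT hT ϖ hϖ y hy => ?_⟩
  have hbT : ∀ P ∈ D.T, C < (Nm P : ℝ) := fun P hP =>
    lt_of_le_of_lt hb (by exact_mod_cast (hT P hP).1)
  obtain ⟨a, ha, ha'⟩ := haux D.T y fun P hP => lt_of_le_of_lt hBC1 (hbT P hP)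
  have hdl0 : 0 ≤ dl D.T y := Real.rpow_nonneg (Nat.cast_nonneg _) _
  have ha'' : a ∈ Bx K (C * dl D.T y) := fun σ =>
    (ha' σ).trans (mul_le_mul_of_nonneg_right hBC1 hdl0)
  set E : TDat K := ⟨D.T, D.c, D.γ⟩ with hE
  have hEok : E.Ok := by
    intro P hP
    refine ⟨hD.2.1 P hP, fun h2 => ?_, (hT P hP).2⟩
    exact Finset.disjoint_left.1 hD.1 hP (hD.2.2.2 P (Or.inl h2))
  obtain ⟨x₀, hx₀⟩ := hcnt E y a hEok ha
  obtain ⟨Y₀, hY₀⟩ := hL D hD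
  obtain ⟨Y₁, hY₁⟩ := exists_nat_ge (max x₀ 1)
  refine ⟨max Y₀ Y₁, fun Y hY => ?_⟩
  have hYr : max x₀ 1 ≤ (Y : ℝ) := hY₁.trans (by exact_mod_cast (le_max_right _ _).trans hY)
  have hYx : x₀ ≤ (Y : ℝ) := (le_max_left _ _).trans hYr
  have hY1 : (1 : ℝ) ≤ (Y : ℝ) := (le_max_right _ _).trans hYr
  have hY1' : 1 ≤ Y := by exact_mod_cast hY1
  obtain ⟨hfin, hcard⟩ := hx₀ (Y : ℝ) hYx (FamN D Y) (hirr D Y hD)
  obtain ⟨-, hfam⟩ := hY₀ Y ((le_max_left _ _).trans hY)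
  have hsub : {f ∈ FamN D Y | PatN D ϖ y f} ⊆ BFy C (Y : ℝ) E y a (FamN D Y) := by
    rintro f ⟨hf, hpat⟩
    obtain ⟨d, G, S, hd, hds, hG, hS, hGb, hSb, hdet, hpen, hloc, hnz⟩ :=
      hKey C hBC2 D Y hD hY1' hbT ϖ hϖ y hy a ha ha'' f hf hpat
    refine ⟨hf, fun i => (d i : ℝ), (G, S), fun i j hij => Int.cast_le.2 (hd hij), ?_,
      ⟨hG, hS, fun i j σ => ?_, fun i j σ => ?_, fun P hP => ?_⟩, hdet, hpen, hnz⟩
    · rw [Fin.sum_univ_three] at hds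
      push_cast at hds
      exact hds
    · refine (hGb i j σ).trans (le_of_eq ?_)
      push_cast
      rfl
    · refine (hSb i j σ).trans (le_of_eq ?_)
      push_cast
      ring
    · obtain ⟨hm, hdg, -⟩ := hD.2.1 P hP
      refine (hYLS (𝓞 K) P 1 a (D.c P) (D.γ P) f ((X - Polynomial.C (D.c P)) * D.γ P) (y P) G S
        hf.1 ((monic_X_sub_C _).mul hm) hf.2.1 ?_ (hf.2.2.2.1 P hP) (hloc P hP)).1
      rw [(monic_X_sub_C _).natDegree_mul hm, natDegree_X_sub_C, hdg]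
  have hle : {f ∈ FamN D Y | PatN D ϖ y f}.ncard ≤ (BFy C (Y : ℝ) E y a (FamN D Y)).ncard :=
    Set.ncard_le_ncard hsub hfin
  have hN : (E.N : ℝ) ^ 3 = ∏ P ∈ D.T, (Nm P : ℝ) ^ 3 := by
    rw [Finset.prod_pow, TDat.N, Nat.cast_prod]
    rfl
  have hNpos : (0 : ℝ) < (E.N : ℝ) ^ 3 := by
    have : 0 < E.N := Finset.prod_pos fun P hP => by
      have h1 := (hEok P hP).2.2
      have h2 : 0 < E.T.card := Finset.card_pos.2 ⟨P, hP⟩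
      omega
    have h : (0 : ℝ) < (E.N : ℝ) := by exact_mod_cast this
    positivity
  rw [← hN, hDT, ← hM] at hfam
  have hbad : (({f ∈ FamN D Y | PatN D ϖ y f}.ncard : ℕ) : ℝ) ≤
      ((BFy C (Y : ℝ) E y a (FamN D Y)).ncard : ℝ) := by exact_mod_cast hle
  set x : ℝ := (({f ∈ FamN D Y | PatN D ϖ y f}.ncard : ℕ) : ℝ) with hx
  set F : ℝ := ((FamN D Y).ncard : ℝ) with hF
  have h1 : (2 : ℝ) ^ D.T.card * x * (E.N : ℝ) ^ 3 ≤ c₁ * (c₂ * (F * (E.N : ℝ) ^ 3 * M)) := by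
    calc (2 : ℝ) ^ D.T.card * x * (E.N : ℝ) ^ 3
        ≤ 2 ^ D.T.card * ((BFy C (Y : ℝ) E y a (FamN D Y)).ncard : ℝ) * (E.N : ℝ) ^ 3 := by
          gcongr
      _ ≤ c₁ * (Y : ℝ) ^ (6 * dg K) := hcard
      _ ≤ _ := by
          refine mul_le_mul_of_nonneg_left ?_ hc₁.le
          exact hfam
  refine le_of_mul_le_mul_right ?_ hNpos
  calc (2 : ℝ) ^ D.T.card * x * (E.N : ℝ) ^ 3 ≤ c₁ * (c₂ * (F * (E.N : ℝ) ^ 3 * M)) := h1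
    _ = _ := by ring

end Pool.PNF
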