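import Pool.Agent.H41.PNF.Cnt
import Pool.Agent.H50.NF.NCNT

/-!
# PNF, row YCNT: the final bound of the count with patterns
-/

set_option autoImplicit false

namespace Pool.PNF

open Polynomial Matrix NumberField IsDedekindDomain Pool.HYP Pool.TOW Pool.AVS Pool.T1 Pool.NF
  Pool.PRK

namespace YCNT50

theorem ppy_mono {K : Type} [Field K] [NumberField K] {C C' x : ℝ} (h : C ≤ C') (D : TDat K)
    (y : HeightOneSpectrum (𝓞 K) → Ty) (a : 𝓞 K) (hx : 0 ≤ x * dl D.T y)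
    (d : Fin 3 → ℝ) : PPy C x D y a d ⊆ PPy C' x D y a d := by
  rintro p ⟨h1, h3, h4, h5, h6⟩
  refine ⟨h1, h3, fun i j σ => (h4 i j σ).trans ?_, fun i j σ => (h5 i j σ).trans ?_, h6⟩
  · exact mul_le_mul_of_nonneg_right h (Real.exp_pos _).le
  · exact mul_le_mul_of_nonneg_right (mul_le_mul_of_nonneg_right h hx) (Real.exp_pos _).le

end YCNT50

open YCNT50 Pool.NF.NCNT50 in
/-- YCNT. -/
theorem ycnt : YCNTStmt := by
  classical
  intro hNPT hNUU hNAD hNRO hNSU hNFI hYLS hYTR hYCO hYPM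
  intro K _ _ C hC
  obtain ⟨C', hC'⟩ : ∃ C', C' = 9 * C + 3 := ⟨_, rfl⟩
  have hC1 : 1 ≤ C' := by linarith
  have hCC : C ≤ C' := by linarith
  have hC3 : C + 3 ≤ C' := by linarith
  have hC9 : 9 * C ≤ C' := by linarith
  obtain ⟨n, hn⟩ : ∃ n, n = dg K := ⟨_, rfl⟩
  have hn1 : 1 ≤ n := by
    rw [hn]
    exact Module.finrank_pos
  have hnR : (1 : ℝ) ≤ (n : ℝ) := by exact_mod_cast hn1
  obtain ⟨c2, hc2, hM⟩ := hYPM K C' hC1
  obtain ⟨c1, hc1, hT⟩ := hNPT K C' hC1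
  obtain ⟨c3, hc3, hU⟩ := hNUU K C' hC1
  obtain ⟨c4, hc4, hS⟩ := hNSU C' n hC1 hn1
  rw [← hn] at hM hT hU ⊢
  refine ⟨c2 / c3 * c4 * Real.exp (n * (C' / 3)) + 1, by positivity, fun D y a hD hA => ?_⟩
  have hN0 : 0 < D.N := Finset.prod_pos fun P hP => by
    have h1 := (hD P hP).2.2
    have h2 : 0 < D.T.card := Finset.card_pos.2 ⟨P, hP⟩
    omega
  obtain ⟨N, hN⟩ : ∃ N : ℝ, N = (D.N : ℝ) := ⟨_, rfl⟩
  have hNpos : 0 < N := by
    rw [hN]
    exact_mod_cast hN0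
  obtain ⟨k, hk⟩ : ∃ k, k = D.T.card := ⟨_, rfl⟩
  obtain ⟨W, hW⟩ : ∃ W : ℝ, W = ((∏ P ∈ odd D.T y, Nm P : ℕ) : ℝ) := ⟨_, rfl⟩
  obtain ⟨dT, hdT⟩ : ∃ dT, dT = dl D.T y := ⟨_, rfl⟩
  obtain ⟨D0, hD0⟩ : ∃ D0 : TDat K, D0 = ⟨∅, D.c, D.γ⟩ := ⟨_, rfl⟩
  have hdT1 : 1 ≤ dT := hdT ▸ (hYTR K 1 1 D y a (fun _ => 0) le_rfl).1
  have hdT2 : dT ^ n = W := by
    rw [hdT, hn, hW]
    exact (hYTR K 1 1 D y a (fun _ => 0) le_rfl).2.1
  have hWpos : 0 < W := by
    rw [← hdT2]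
    positivity
  obtain ⟨N', hN'⟩ : ∃ N', N' = N * W ^ 2 := ⟨_, rfl⟩
  have hN'pos : 0 < N' := by
    rw [hN']
    positivity
  obtain ⟨B, hB⟩ : ∃ B, B = 2 ^ k * N ^ 3 * (c1 / c3) * W ^ 6 * c4 := ⟨_, rfl⟩
  have hB0 : 0 < B := by
    rw [hB]
    positivity
  refine ⟨Real.exp |2 * Real.log B + Real.log N'|, fun x hx F hF => ?_⟩
  have hx1 : 1 ≤ x := le_trans (by
    rw [← Real.exp_zero]
    exact Real.exp_le_exp.2 (abs_nonneg _)) hx
  have hx0 : 0 < x := by linarith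
  have hlx : |2 * Real.log B + Real.log N'| ≤ Real.log x := by
    rw [Real.le_log_iff_exp_le hx0]
    exact hx
  have hlx0 : 0 ≤ Real.log x := Real.log_nonneg hx1
  obtain ⟨X, hX⟩ : ∃ X, X = x * dT := ⟨_, rfl⟩
  have hxX : x ≤ X := by
    rw [hX]
    exact le_mul_of_one_le_right hx0.le hdT1
  have hX1 : 1 ≤ X := hx1.trans hxX
  have hX0 : 0 < X := by linarith
  have hXn : X ^ (6 * n) = W ^ 6 * x ^ (6 * n) := by
    rw [hX, mul_pow, ← hdT2, ← pow_mul]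
    ring
  obtain ⟨y0, hy0⟩ : ∃ y0, y0 = -(Real.log (C' * X)) / 2 := ⟨_, rfl⟩
  have hCx : 0 < C' * X := by positivity
  have hbox : ∀ t : ℝ, y0 ≤ t → 1 ≤ C' * X * Real.exp (2 * t) := fun t ht => by
    have h1 : C' * X = Real.exp (Real.log (C' * X)) := (Real.exp_log hCx).symm
    rw [h1, ← Real.exp_add, ← Real.exp_zero]
    apply Real.exp_le_exp.2
    rw [hy0] at ht
    linarith
  have hbox' : ∀ t : ℝ, 1 ≤ C * X * Real.exp (2 * t) → y0 ≤ t := fun t ht => by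
    have h1 : 1 ≤ C' * X * Real.exp (2 * t) := ht.trans
      (mul_le_mul_of_nonneg_right (mul_le_mul_of_nonneg_right hCC hX0.le) (Real.exp_pos _).le)
    have h2 : C' * X = Real.exp (Real.log (C' * X)) := (Real.exp_log hCx).symm
    rw [h2, ← Real.exp_add, ← Real.exp_zero] at h1
    have h3 := Real.exp_le_exp.1 h1
    rw [hy0]
    linarith
  obtain ⟨E, hE⟩ : ∃ E : Finset (Fin 3 → ℤ), ∀ e, e ∈ E ↔
      Adn C' (fun i => (e i : ℝ)) ∧ y0 ≤ (e 0 : ℝ) :=
    ⟨(hNFI C' y0).toFinset, fun e => by rw [Set.Finite.mem_toFinset]; rfl⟩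
  have hfinE : ∀ e ∈ E, (PPy (9 * C) x D y a (fun i => (e i : ℝ))).Finite ∧
      ((PPy (9 * C) x D y a (fun i => (e i : ℝ))).ncard : ℝ) ≤
        ((PPy C' x D y a (fun i => (e i : ℝ))).ncard : ℝ) ∧
      ((PPy C' x D y a (fun i => (e i : ℝ))).ncard : ℝ) ≤
        c1 * W ^ 6 * x ^ (6 * n) * Real.exp (-(3 * n) * (e 0 : ℝ)) := fun e he => by
    obtain ⟨h1, h3⟩ := (hE e).1 he
    obtain ⟨h4, h5⟩ := hT D0 (fun i => (e i : ℝ)) X h1 hX1 (hbox _ h3)
    have h6 := ppy_mono hC9 D y a (by rw [← hdT, ← hX]; exact hX0.le) (fun i => (e i : ℝ))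
    have h7 : PPy C' x D y a (fun i => (e i : ℝ)) ⊆ PPn C' X D0 (fun i => (e i : ℝ)) := by
      rw [hX, hdT, hD0]
      exact (hYTR K C' x D y a _ hx1).2.2.1
    have h8 : (PPy C' x D y a (fun i => (e i : ℝ))).Finite := h4.subset h7
    refine ⟨h8.subset h6, by exact_mod_cast Set.ncard_le_ncard h6 h8, ?_⟩
    have h9 : ((PPy C' x D y a (fun i => (e i : ℝ))).ncard : ℝ) ≤
        ((PPn C' X D0 (fun i => (e i : ℝ))).ncard : ℝ) := by
      exact_mod_cast Set.ncard_le_ncard h7 h4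
    refine h9.trans (h5.trans (le_of_eq ?_))
    rw [hXn]
    ring
  have hPFfin : ∀ e ∈ E, (PFy C x D y a F (fun i => (e i : ℝ))).Finite := fun e he =>
    (hYCO hYLS K C x D y a _ F (by linarith) hx0.le ((hE e).1 he).1.1 hA.1 hF
      (fun P hP => (hD P hP).1) (hfinE e he).1).1
  have hPU : ∀ e ∈ E, ((PFy C x D y a F (fun i => (e i : ℝ))).ncard : ℝ) *
      (c3 * Real.exp (-(4 * n) * (e 0 : ℝ))) ≤
      ((PPy C' x D y a (fun i => (e i : ℝ))).ncard : ℝ) := fun e he => by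
    have h1 := (hYCO hYLS K C x D y a _ F (by linarith) hx0.le ((hE e).1 he).1.1 hA.1 hF
      (fun P hP => (hD P hP).1) (hfinE e he).1).2
    have h3 : ((PFy C x D y a F (fun i => (e i : ℝ))).ncard : ℝ) *
        ((UUn K (fun i => (e i : ℝ))).ncard : ℝ) ≤
        ((PPy (9 * C) x D y a (fun i => (e i : ℝ))).ncard : ℝ) := by exact_mod_cast h1
    have h4 := (hU _ ((hE e).1 he).1).2
    exact (mul_le_mul_of_nonneg_left h4 (by positivity)).trans (h3.trans (hfinE e he).2.1)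
  -- the two bounds
  have hmain : ∀ e ∈ E, N' ≤ (C' * X * Real.exp (2 * (e 0 : ℝ))) ^ n →
      2 ^ k * ((PFy C x D y a F (fun i => (e i : ℝ))).ncard : ℝ) * N ^ 3 ≤
        c2 / c3 * x ^ (6 * n) * Real.exp (n * (e 0 : ℝ)) := fun e he hlarge => by
    have h1 := (hM D y a (fun i => (e i : ℝ)) x hD hA ((hE e).1 he).1 hx1 (by
      rw [← hN, ← hW, ← hN', ← hdT, ← hX]
      exact hlarge)).2
    rw [← hk, ← hN] at h1
    refine div_exp hc3 ?_
    refine le_trans ?_ h1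
    have h3 := mul_le_mul_of_nonneg_left (hPU e he) (show (0 : ℝ) ≤ 2 ^ k * N ^ 3 by positivity)
    linarith
  have hother : ∀ e ∈ E, 2 ^ k * ((PFy C x D y a F (fun i => (e i : ℝ))).ncard : ℝ) * N ^ 3 ≤
        2 ^ k * N ^ 3 * (c1 / c3) * W ^ 6 * (x ^ (6 * n)) * Real.exp (n * (e 0 : ℝ)) := fun e he => by
    have h1 : ((PFy C x D y a F (fun i => (e i : ℝ))).ncard : ℝ) ≤
        c1 * W ^ 6 / c3 * x ^ (6 * n) * Real.exp (n * (e 0 : ℝ)) :=
      div_exp hc3 ((hPU e he).trans (hfinE e he).2.2)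
    have h3 := mul_le_mul_of_nonneg_left h1 (show (0 : ℝ) ≤ 2 ^ k * N ^ 3 by positivity)
    have h4 : c1 * W ^ 6 / c3 = c1 / c3 * W ^ 6 := by ring
    rw [h4] at h3
    linarith
  -- the set of the bad polynomials
  have hsub : BFy C x D y a F ⊆ ⋃ e ∈ E, PFy C x D y a F (fun i => (e i : ℝ)) := by
    rintro f ⟨hf, d, p, hd, hds, hp⟩
    have hpn : PMn C X D0 d (f.scaleRoots a) p := by
      rw [hX, hdT, hD0]
      exact (hYTR K C x D y a d hx1).2.2.2 f p hp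
    obtain ⟨e, he1, he2, he3⟩ := hNRO K C X D0 d (f.scaleRoots a) p hC hX1 hd hds hpn
    have he4 := he3 C le_rfl
    have hmon : Monotone fun i => (e i : ℝ) := fun i j hij => by
      show (e i : ℝ) ≤ e j
      exact_mod_cast he1 hij
    obtain ⟨h5, h6, h7⟩ := hNAD K C X D0 (fun i => (e i : ℝ)) (f.scaleRoots a) p hC hX1 hmon he4
    have he5 : PMy C x D y a (fun i => (e i : ℝ)) f p := by
      refine ⟨⟨he4.1.1, he4.1.2.1, he4.1.2.2.1, ?_, hp.1.2.2.2.2⟩, hp.2.1, hp.2.2.1, hp.2.2.2⟩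
      have h8 := he4.1.2.2.2.1
      rw [hX, hdT] at h8
      exact h8
    refine Set.mem_iUnion₂.2 ⟨e, (hE e).2 ⟨?_, hbox' _ h7⟩, hf, p, he5⟩
    exact adn_mono hC3 ⟨hmon, he2, by linarith, by linarith⟩
  have hUfin : (⋃ e ∈ E, PFy C x D y a F (fun i => (e i : ℝ))).Finite :=
    E.finite_toSet.biUnion fun e he => hPFfin e (Finset.mem_coe.1 he)
  refine ⟨hUfin.subset hsub, ?_⟩
  have hcard : ((BFy C x D y a F).ncard : ℝ) ≤
      ∑ e ∈ E, ((PFy C x D y a F (fun i => (e i : ℝ))).ncard : ℝ) := by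
    have h3 := (Set.ncard_le_ncard hsub hUfin).trans (Finset.set_ncard_biUnion_le E _)
    exact_mod_cast h3
  rw [← hk, ← hN]
  have hstep : 2 ^ k * ((BFy C x D y a F).ncard : ℝ) * N ^ 3 ≤
      ∑ e ∈ E, 2 ^ k * ((PFy C x D y a F (fun i => (e i : ℝ))).ncard : ℝ) * N ^ 3 := by
    rw [← Finset.sum_mul, ← Finset.mul_sum]
    exact mul_le_mul_of_nonneg_right (mul_le_mul_of_nonneg_left hcard (by positivity))
      (by positivity)
  refine hstep.trans ?_
  rw [← Finset.sum_filter_add_sum_filter_not E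
    (fun e => N' ≤ (C' * X * Real.exp (2 * (e 0 : ℝ))) ^ n), add_mul]
  apply add_le_add
  · calc ∑ e ∈ E.filter (fun e => N' ≤ (C' * X * Real.exp (2 * (e 0 : ℝ))) ^ n),
          2 ^ k * ((PFy C x D y a F (fun i => (e i : ℝ))).ncard : ℝ) * N ^ 3
        ≤ ∑ e ∈ E.filter (fun e => N' ≤ (C' * X * Real.exp (2 * (e 0 : ℝ))) ^ n),
          c2 / c3 * x ^ (6 * n) * Real.exp (n * (e 0 : ℝ)) :=
          Finset.sum_le_sum fun e he => hmain e (Finset.mem_filter.1 he).1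
            (Finset.mem_filter.1 he).2
      _ = c2 / c3 * x ^ (6 * n) *
          ∑ e ∈ E.filter (fun e => N' ≤ (C' * X * Real.exp (2 * (e 0 : ℝ))) ^ n),
            Real.exp (n * (e 0 : ℝ)) := by rw [Finset.mul_sum]
      _ ≤ c2 / c3 * x ^ (6 * n) * (c4 * Real.exp (n * (C' / 3))) := by
          refine mul_le_mul_of_nonneg_left (hS _ (C' / 3) fun e he => ?_) (by positivity)
          have h1 := ((hE e).1 (Finset.mem_filter.1 he).1).1
          refine ⟨h1, ?_⟩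
          have h3 : (e 0 : ℝ) ≤ e 1 := h1.1 (by decide : (0 : Fin 3) ≤ 1)
          have h4 : (e 0 : ℝ) ≤ e 2 := h1.1 (by decide : (0 : Fin 3) ≤ 2)
          have h5 : (e 0 : ℝ) + e 1 + e 2 ≤ C' := h1.2.1
          linarith
      _ = c2 / c3 * c4 * Real.exp (n * (C' / 3)) * x ^ (6 * n) := by ring
  · obtain ⟨z, hz⟩ : ∃ z, z = (Real.log N' - n * Real.log x) / (2 * n) := ⟨_, rfl⟩
    have hny : n * z = (Real.log N' - n * Real.log x) / 2 := by
      rw [hz]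
      have : (n : ℝ) ≠ 0 := by positivity
      field_simp
    have hsmall : ∀ e ∈ E.filter (fun e => ¬ N' ≤ (C' * X * Real.exp (2 * (e 0 : ℝ))) ^ n),
        Adn C' (fun i => (e i : ℝ)) ∧ (e 0 : ℝ) ≤ z := fun e he => by
      obtain ⟨h1, h2⟩ := Finset.mem_filter.1 he
      refine ⟨((hE e).1 h1).1, ?_⟩
      have h3 : (C' * X * Real.exp (2 * (e 0 : ℝ))) ^ n < N' := not_le.1 h2
      have hpos : 0 < C' * X * Real.exp (2 * (e 0 : ℝ)) := mul_pos hCx (Real.exp_pos _)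
      have h4 := Real.log_lt_log (pow_pos hpos n) h3
      rw [Real.log_pow, Real.log_mul hCx.ne' (Real.exp_pos _).ne', Real.log_exp,
        Real.log_mul (by positivity) hX0.ne'] at h4
      have h5 : 0 ≤ Real.log C' := Real.log_nonneg hC1
      have h55 : Real.log x ≤ Real.log X := Real.log_le_log hx0 hxX
      have h6 : (n : ℝ) * (Real.log x + 2 * (e 0 : ℝ)) ≤
          n * (Real.log C' + Real.log X + 2 * (e 0 : ℝ)) :=
        mul_le_mul_of_nonneg_left (by linarith) (by linarith)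
      rw [hz, le_div_iff₀ (by linarith)]
      linarith
    calc ∑ e ∈ E.filter (fun e => ¬ N' ≤ (C' * X * Real.exp (2 * (e 0 : ℝ))) ^ n),
          2 ^ k * ((PFy C x D y a F (fun i => (e i : ℝ))).ncard : ℝ) * N ^ 3
        ≤ ∑ e ∈ E.filter (fun e => ¬ N' ≤ (C' * X * Real.exp (2 * (e 0 : ℝ))) ^ n),
          2 ^ k * N ^ 3 * (c1 / c3) * W ^ 6 * (x ^ (6 * n)) * Real.exp (n * (e 0 : ℝ)) :=
          Finset.sum_le_sum fun e he => hother e (Finset.mem_filter.1 he).1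
      _ = 2 ^ k * N ^ 3 * (c1 / c3) * W ^ 6 * (x ^ (6 * n)) *
          ∑ e ∈ E.filter (fun e => ¬ N' ≤ (C' * X * Real.exp (2 * (e 0 : ℝ))) ^ n),
            Real.exp (n * (e 0 : ℝ)) := by rw [Finset.mul_sum]
      _ ≤ 2 ^ k * N ^ 3 * (c1 / c3) * W ^ 6 * (x ^ (6 * n)) * (c4 * Real.exp (n * z)) :=
          mul_le_mul_of_nonneg_left (hS _ z hsmall) (by positivity)
      _ = (B * Real.exp (n * z)) * x ^ (6 * n) := by
          rw [hB]
          ring
      _ ≤ 1 * x ^ (6 * n) := by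
          refine mul_le_mul_of_nonneg_right ?_ (by positivity)
          have h1 : B = Real.exp (Real.log B) := (Real.exp_log hB0).symm
          rw [h1, ← Real.exp_add, ← Real.exp_zero]
          apply Real.exp_le_exp.2
          rw [hny]
          have h3 : 2 * Real.log B + Real.log N' ≤ Real.log x := (le_abs_self _).trans hlx
          have h4 : Real.log x ≤ n * Real.log x := by
            have := mul_le_mul_of_nonneg_right hnR hlx0
            linarith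
          linarith

end Pool.PNF
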