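import Pool.Agent.H41.PNF.Cnt
import Pool.Agent.H50.NF.NCO
import Pool.Agent.H77.PRK.CT1Y

/-!
# PNF, row YCO: orbits of pairs of matrices with a pattern, number fields
-/

set_option autoImplicit false
set_option linter.unusedSectionVars false

namespace Pool.PNF

open Polynomial Matrix NumberField IsDedekindDomain Pool.HYP Pool.TOW Pool.AVS Pool.T1 Pool.NF
  Pool.PRK Pool.NF.NCO50

namespace YCO50

theorem irr_sr {k : Type} [Field k] {g : k[X]} {c : k} (hc : c ≠ 0) (h : Irreducible g) :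
    Irreducible (g.scaleRoots c) := by
  constructor
  · rw [Polynomial.isUnit_iff_degree_eq_zero, degree_scaleRoots,
      ← Polynomial.isUnit_iff_degree_eq_zero]
    exact h.not_isUnit
  · intro u v huv
    have h1 : g = u.scaleRoots c⁻¹ * v.scaleRoots c⁻¹ := by
      rw [← mul_scaleRoots_of_noZeroDivisors, ← huv, ← scaleRoots_mul, mul_inv_cancel₀ hc,
        scaleRoots_one]
    rcases h.isUnit_or_isUnit h1 with h2 | h2
    · left
      rwa [Polynomial.isUnit_iff_degree_eq_zero, degree_scaleRoots,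
        ← Polynomial.isUnit_iff_degree_eq_zero] at h2
    · right
      rwa [Polynomial.isUnit_iff_degree_eq_zero, degree_scaleRoots,
        ← Polynomial.isUnit_iff_degree_eq_zero] at h2

end YCO50

/-- YCO. -/
theorem yco : YCOStmt := by
  intro _ K _ _ C x D y a d F hC hx hd ha hF _ hW
  have hinjA : Function.Injective (algebraMap (𝓞 K) K) := IsFractionRing.injective (𝓞 K) K
  have h2 : (2 : 𝓞 K) ≠ 0 := by
    intro h
    have h1 := congrArg (algebraMap (𝓞 K) K) h
    rw [map_ofNat, map_zero] at h1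
    exact two_ne_zero h1
  have hdl : 0 ≤ dl D.T y := Real.rpow_nonneg (Nat.cast_nonneg _) _
  have hxd : 0 ≤ x * dl D.T y := mul_nonneg hx hdl
  have hsubC : PPy C x D y a d ⊆ PPy (9 * C) x D y a d := by
    rintro p ⟨h1, h3, h4, h5, h6⟩
    have h9 : C ≤ 9 * C := by linarith
    refine ⟨h1, h3, fun i j => bx_mono ?_ (h4 i j), fun i j => bx_mono ?_ (h5 i j), h6⟩
    · exact mul_le_mul_of_nonneg_right h9 (Real.exp_pos _).le
    · exact mul_le_mul_of_nonneg_right (mul_le_mul_of_nonneg_right h9 hxd) (Real.exp_pos _).le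
  have hinj : ∀ f f' : (𝓞 K)[X], f.scaleRoots a = f'.scaleRoots a → f = f' := fun f f' h =>
    twjk (𝓞 K) a ha h
  constructor
  · choose! p hp using fun (f : (𝓞 K)[X]) (hf : f ∈ PFy C x D y a F d) => hf.2
    refine Set.Finite.of_injOn (f := p) (t := PPy (9 * C) x D y a d)
      (fun f hf => hsubC (hp f hf).1) ?_ hW
    intro f hf f' hf' h
    obtain ⟨-, k1, k2, -⟩ := hp f hf
    obtain ⟨-, k3, k4, -⟩ := hp f' hf'
    rw [h] at k1 k2
    rw [k2] at k4
    exact hinj _ _ (mul_left_cancel₀ (C_ne_zero.2 k1) k4)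
  · have himg : ((fun f : (𝓞 K)[X] => f.scaleRoots a) '' PFy C x D y a F d).ncard =
        (PFy C x D y a F d).ncard :=
      Set.ncard_image_of_injective _ fun f f' h => hinj f f' h
    rw [← himg]
    refine Cnt.orbit_cnt K h2 (by norm_num)
      ((fun f : (𝓞 K)[X] => f.scaleRoots a) '' PFy C x D y a F d) (UUn K d)
      (PPy (9 * C) x D y a d) hW (fun u hu => ⟨hu.1, hu.2.1⟩) ?_
    rintro _ ⟨f, hf, rfl⟩
    refine ⟨?_, ?_⟩
    · show Irreducible (fk K (f.scaleRoots a))
      have hirr := hF f hf.1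
      have h1 : fk K (f.scaleRoots a) = (fk K f).scaleRoots (algebraMap (𝓞 K) K a) := by
        refine map_scaleRoots f a _ ?_
        intro h0
        have h3 : f.leadingCoeff = 0 := hinjA (h0.trans (map_zero _).symm)
        rw [leadingCoeff_eq_zero] at h3
        rw [h3] at hirr
        exact hirr.ne_zero (Polynomial.map_zero _)
      rw [h1]
      refine YCO50.irr_sr ?_ hirr
      intro h0
      exact ha (hinjA (h0.trans (map_zero _).symm))
    obtain ⟨⟨G, S⟩, ⟨k1, k2, k3, k4, k5⟩, k6, k7, -⟩ := hf.2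
    refine ⟨G, S, k1, k2, k6, k7, fun u hu => ?_⟩
    have hdu : u.det = 1 := by
      rw [Matrix.det_of_isUpperTriangular (fun i j hij => hu.2.1 i j hij)]
      exact Finset.prod_eq_one fun i _ => hu.1 i
    refine ⟨?_, ?_, fun i j => ?_, fun i j => ?_, fun P hP =>
      ⟨fun h0 => Ct1y.uns hdu ((k5 P hP).1 h0), fun h0 => Ct1y.ras hdu ((k5 P hP).2 h0)⟩⟩
    · show (uᵀ * G * u)ᵀ = uᵀ * G * u
      rw [Matrix.transpose_mul, Matrix.transpose_mul, Matrix.transpose_transpose,
        show Gᵀ = G from k1, Matrix.mul_assoc]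
    · show (uᵀ * S * u)ᵀ = uᵀ * S * u
      rw [Matrix.transpose_mul, Matrix.transpose_mul, Matrix.transpose_transpose,
        show Sᵀ = S from k2, Matrix.mul_assoc]
    · exact bx_conj hC (uu_bx hu) k3 i j
    · have h3 := bx_conj (mul_nonneg hC hxd) (uu_bx hu) k4 i j
      rwa [show 9 * (C * (x * dl D.T y)) = 9 * C * (x * dl D.T y) by ring] at h3

end Pool.PNF
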